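import Pool.Agent.Lib.MP_10f401_gt.Defs

/-!
# Basic facts on meager sets of the Cantor space, `cov(M)` and `𝔡`
-/

set_option autoImplicit false

namespace Pool.Agent.Lib.MP_10f401_gt

open Set Filter
open scoped Cardinal

/-- The Cantor space. -/
abbrev C := ℕ → Bool

/-- Closed and nowhere dense. -/
def CND {X : Type*} [TopologicalSpace X] (F : Set X) : Prop := IsClosed F ∧ IsNowhereDense F

theorem CND.exists_notMem {X : Type*} [TopologicalSpace X] {F U : Set X} (hF : CND F)
    (hU : IsOpen U) (hne : U.Nonempty) : ∃ x ∈ U, x ∉ F := by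
  by_contra h
  push Not at h
  have h1 : U ⊆ interior (closure F) := interior_maximal (fun x hx => subset_closure (h x hx)) hU
  obtain ⟨x, hx⟩ := hne
  have := h1 hx
  rw [hF.2] at this
  exact this

theorem cnd_of_forall {X : Type*} [TopologicalSpace X] {F : Set X} (hF : IsClosed F)
    (h : ∀ U : Set X, IsOpen U → U.Nonempty → ∃ x ∈ U, x ∉ F) : CND F := by
  refine ⟨hF, ?_⟩
  rw [hF.isNowhereDense_iff]
  by_contra hne
  obtain ⟨x, hx, hxF⟩ := h _ isOpen_interior (nonempty_iff_ne_empty.2 hne)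
  exact hxF (interior_subset hx)

theorem CND.isMeagre {X : Type*} [TopologicalSpace X] {F : Set X} (hF : CND F) : IsMeagre F :=
  hF.2.isMeagre

theorem CND.preimage_homeo {X Y : Type*} [TopologicalSpace X] [TopologicalSpace Y] (e : X ≃ₜ Y)
    {F : Set Y} (hF : CND F) : CND (e ⁻¹' F) := by
  refine cnd_of_forall (hF.1.preimage e.continuous) fun U hU hne => ?_
  obtain ⟨y, ⟨x, hx, rfl⟩, hy⟩ := hF.exists_notMem (e.isOpenMap U hU) (hne.image e)
  exact ⟨x, hx, hy⟩

/-- Every meager set is covered by countably many closed nowhere dense sets. -/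
theorem exists_cnd_cover {X : Type*} [TopologicalSpace X] {M : Set X} (hM : IsMeagre M) :
    ∃ N : ℕ → Set X, (∀ n, CND (N n)) ∧ M ⊆ ⋃ n, N n := by
  rw [isMeagre_iff_countable_union_isNowhereDense] at hM
  obtain ⟨S, hS, hc, hsub⟩ := hM
  rcases S.eq_empty_or_nonempty with rfl | hne
  · refine ⟨fun _ => ∅, fun _ => ⟨isClosed_empty, isNowhereDense_empty⟩, ?_⟩
    rw [sUnion_empty] at hsub
    exact hsub.trans (empty_subset _)
  · obtain ⟨f, hf⟩ := hc.exists_eq_range hne
    refine ⟨fun n => closure (f n), fun n => ⟨isClosed_closure, ?_⟩, ?_⟩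
    · exact (hS _ (hf ▸ mem_range_self n)).closure
    · intro x hx
      obtain ⟨t, ht, hxt⟩ := hsub hx
      rw [hf] at ht
      obtain ⟨n, rfl⟩ := ht
      exact mem_iUnion.2 ⟨n, subset_closure hxt⟩

theorem isMeagre_iUnion_cnd {X : Type*} [TopologicalSpace X] {N : ℕ → Set X}
    (h : ∀ n, CND (N n)) : IsMeagre (⋃ n, N n) := isMeagre_iUnion fun n => (h n).isMeagre

/-- Initial segments: basic open subsets of the Cantor space. -/
def cyl (x : C) (n : ℕ) : Set C := {y | ∀ i < n, y i = x i}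

theorem isOpen_cyl (x : C) (n : ℕ) : IsOpen (cyl x n) := PiNat.isOpen_cylinder (E := fun _ => Bool) x n

theorem self_mem_cyl (x : C) (n : ℕ) : x ∈ cyl x n := fun _ _ => rfl

theorem exists_cyl_subset {U : Set C} (hU : IsOpen U) {x : C} (hx : x ∈ U) : ∃ n, cyl x n ⊆ U := by
  obtain ⟨v, ⟨y, n, rfl⟩, hxv, hvU⟩ :=
    (PiNat.isTopologicalBasis_cylinders (fun _ => Bool)).exists_subset_of_mem_open hx hU
  refine ⟨n, fun z hz => hvU fun i hi => ?_⟩
  rw [hz i hi]
  exact hxv i hi

theorem cyl_anti (x : C) {m n : ℕ} (h : m ≤ n) : cyl x n ⊆ cyl x m :=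
  fun _ hy i hi => hy i (hi.trans_le h)

/-- A criterion for being closed nowhere dense: an intersection of clopen sets. -/
theorem cnd_of_cyl {F : Set C} (hF : IsClosed F)
    (h : ∀ (x : C) (n : ℕ), ∃ y ∈ cyl x n, y ∉ F) : CND F := by
  refine cnd_of_forall hF fun U hU ⟨x, hx⟩ => ?_
  obtain ⟨n, hn⟩ := exists_cyl_subset hU hx
  obtain ⟨y, hy, hyF⟩ := h x n
  exact ⟨y, hn hy, hyF⟩

/-- Being determined by a finite number of coordinates implies being clopen. -/
theorem isClopen_of_finite {S : Set C} (n : ℕ) (h : ∀ x y : C, (∀ i < n, x i = y i) → (x ∈ S ↔ y ∈ S)) :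
    IsClopen S := by
  constructor
  · rw [← isOpen_compl_iff]
    refine isOpen_iff_mem_nhds.2 fun x hx => ?_
    refine mem_of_superset ((isOpen_cyl x n).mem_nhds (self_mem_cyl x n)) fun y hy => ?_
    exact fun hyS => hx ((h x y fun i hi => (hy i hi).symm).2 hyS)
  · refine isOpen_iff_mem_nhds.2 fun x hx => ?_
    refine mem_of_superset ((isOpen_cyl x n).mem_nhds (self_mem_cyl x n)) fun y hy => ?_
    exact (h x y fun i hi => (hy i hi).symm).1 hx

/-- A point of the Cantor space is nowhere dense. -/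
theorem cnd_singleton (x : C) : CND ({x} : Set C) := by
  refine cnd_of_cyl isClosed_singleton fun y n => ?_
  refine ⟨fun i => if i < n then y i else !(x i), fun i hi => by simp [hi], fun h => ?_⟩
  have := congrFun (mem_singleton_iff.1 h) n
  simp at this

/-! ### `cov(M)` and `𝔡` -/

theorem covM_mem : ∃ F : Set (Set C), (∀ M ∈ F, IsMeagre M) ∧ ⋃₀ F = univ ∧ #F = covM := by
  have hne : {c : Cardinal.{0} | ∃ F : Set (Set C), (∀ M ∈ F, IsMeagre M) ∧ ⋃₀ F = univ ∧
      #F = c}.Nonempty := by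
    refine ⟨_, range fun x : C => ({x} : Set C), ?_, ?_, rfl⟩
    · rintro _ ⟨x, rfl⟩
      exact (cnd_singleton x).isMeagre
    · rw [eq_univ_iff_forall]
      intro x
      exact ⟨{x}, ⟨x, rfl⟩, rfl⟩
  exact csInf_mem hne

theorem dNum_mem : ∃ D : Set (ℕ → ℕ), (∀ g : ℕ → ℕ, ∃ h ∈ D, ∀ᶠ n in atTop, g n ≤ h n) ∧
    #D = dNum := by
  have hne : {c : Cardinal.{0} | ∃ D : Set (ℕ → ℕ),
      (∀ g : ℕ → ℕ, ∃ h ∈ D, ∀ᶠ n in atTop, g n ≤ h n) ∧ #D = c}.Nonempty :=
    ⟨_, Set.univ, fun g => ⟨g, mem_univ g, Eventually.of_forall fun n => le_rfl⟩, rfl⟩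
  exact csInf_mem hne

theorem dNum_le_continuum : dNum ≤ 𝔠 := by
  have h1 : dNum ≤ #(Set.univ : Set (ℕ → ℕ)) := by
    apply csInf_le'
    exact ⟨Set.univ, fun g => ⟨g, mem_univ g, Eventually.of_forall fun n => le_rfl⟩, rfl⟩
  refine h1.trans ?_
  simp

/-- A family of less than `cov(M)` meager sets does not cover. -/
theorem exists_notMem_of_lt {ι : Type} (M : ι → Set C) (hM : ∀ i, IsMeagre (M i))
    (h : #ι < covM) : ∃ x, ∀ i, x ∉ M i := by
  by_contra hcon
  push Not at hcon
  have h1 : covM ≤ #(range M) := by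
    apply csInf_le'
    refine ⟨range M, ?_, ?_, rfl⟩
    · rintro _ ⟨i, rfl⟩; exact hM i
    · rw [eq_univ_iff_forall]
      intro x
      obtain ⟨i, hi⟩ := hcon x
      exact ⟨M i, ⟨i, rfl⟩, hi⟩
  exact absurd (h1.trans Cardinal.mk_range_le) (not_le.2 h)

theorem aleph0_lt_covM : ℵ₀ < covM := by
  by_contra h
  rw [not_lt] at h
  obtain ⟨F, hF, hu, hc⟩ := covM_mem
  have hFc : F.Countable := by
    rw [← Cardinal.le_aleph0_iff_set_countable, hc]
    exact h
  have h1 : IsMeagre (⋃₀ F) := by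
    rw [sUnion_eq_biUnion]
    exact isMeagre_biUnion hFc hF
  rw [hu] at h1
  exact not_isMeagre_of_isOpen isOpen_univ univ_nonempty h1

theorem covM_le_continuum : covM ≤ 𝔠 := by
  have h1 : covM ≤ #(range fun x : C => ({x} : Set C)) := by
    apply csInf_le'
    refine ⟨range fun x : C => ({x} : Set C), ?_, ?_, rfl⟩
    · rintro _ ⟨x, rfl⟩
      exact (cnd_singleton x).isMeagre
    · rw [eq_univ_iff_forall]
      intro x
      exact ⟨{x}, ⟨x, rfl⟩, rfl⟩
  refine h1.trans (Cardinal.mk_range_le.trans ?_)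
  simp

/-! ### Guessing functions by rows -/

open Classical in
/-- The function coded by the rows of `x`. -/
noncomputable def dec (x : C) (n : ℕ) : ℕ :=
  if h : ∃ j, x (Nat.pair n j) = true then Nat.find h else 0

theorem dec_eq {x : C} {n m : ℕ} (h1 : x (Nat.pair n m) = true)
    (h2 : ∀ j < m, x (Nat.pair n j) = false) : dec x n = m := by
  have h : ∃ j, x (Nat.pair n j) = true := ⟨m, h1⟩
  rw [dec, dif_pos h, Nat.find_eq_iff]
  refine ⟨h1, fun j hj => ?_⟩
  rw [h2 j hj]
  simp

/-- The set of `x` whose rows never guess `f` from `N` on is contained in a closed nowhere dense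
set. -/
theorem isMeagre_not_guess (f : ℕ → ℕ) (N : ℕ) :
    IsMeagre {x : C | ∀ n, N ≤ n → dec x n ≠ f n} := by
  let good : ℕ → Set C := fun n => {x | x (Nat.pair n (f n)) = true ∧
    ∀ j < f n, x (Nat.pair n j) = false}
  have hgood : ∀ n, IsClopen (good n) := by
    intro n
    refine isClopen_of_finite (Nat.pair n (f n) + 1) fun x y hxy => ?_
    have hmono : ∀ j < f n, Nat.pair n j < Nat.pair n (f n) + 1 := fun j hj =>
      (Nat.pair_lt_pair_right n hj).trans (Nat.lt_succ_self _)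
    constructor
    · rintro ⟨h1, h2⟩
      refine ⟨(hxy _ (Nat.lt_succ_self _)).symm.trans h1, fun j hj => ?_⟩
      exact (hxy _ (hmono j hj)).symm.trans (h2 j hj)
    · rintro ⟨h1, h2⟩
      refine ⟨(hxy _ (Nat.lt_succ_self _)).trans h1, fun j hj => ?_⟩
      exact (hxy _ (hmono j hj)).trans (h2 j hj)
  have hcl : IsClosed (⋂ n : ℕ, ⋂ _ : N ≤ n, (good n)ᶜ) :=
    isClosed_iInter fun n => isClosed_iInter fun _ => (hgood n).2.isClosed_compl
  have hcnd : CND (⋂ n : ℕ, ⋂ _ : N ≤ n, (good n)ᶜ) := by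
    refine cnd_of_cyl hcl fun x m => ?_
    let n := max N m
    refine ⟨fun k => if k < m then x k else decide (k = Nat.pair n (f n)),
      fun i hi => by simp [hi], ?_⟩
    intro h
    rw [mem_iInter] at h
    have h1 := h n
    rw [mem_iInter] at h1
    apply h1 (le_max_left _ _)
    have hge : ∀ j, ¬ Nat.pair n j < m := fun j =>
      not_lt.2 ((le_max_right N m).trans (Nat.left_le_pair n j))
    refine ⟨?_, fun j hj => ?_⟩
    · simp [hge]
    · have : Nat.pair n j ≠ Nat.pair n (f n) := (Nat.pair_lt_pair_right n hj).ne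
      simp [hge, this]
  refine hcnd.isMeagre.mono fun x hx => ?_
  rw [mem_iInter]
  intro n
  rw [mem_iInter]
  intro hn hg
  exact hx n hn (dec_eq hg.1 hg.2)

/-- Less than `cov(M)` functions can be guessed infinitely often by a single function. -/
theorem exists_guess {ι : Type} (f : ι → ℕ → ℕ) (h : #ι < covM) :
    ∃ g : ℕ → ℕ, ∀ i, ∀ N, ∃ n, N ≤ n ∧ g n = f i n := by
  have hcard : #(ι × ℕ) < covM := by
    rw [Cardinal.mk_prod, Cardinal.lift_id, Cardinal.lift_id]
    exact Cardinal.mul_lt_of_lt aleph0_lt_covM.le h (by simpa using aleph0_lt_covM)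
  obtain ⟨x, hx⟩ := exists_notMem_of_lt
    (fun p : ι × ℕ => {x : C | ∀ n, p.2 ≤ n → dec x n ≠ f p.1 n})
    (fun p => isMeagre_not_guess _ _) hcard
  refine ⟨dec x, fun i N => ?_⟩
  have := hx (i, N)
  simp only [mem_ofPred_eq] at this
  push Not at this
  exact this

/-! ### Patterns avoiding a nowhere dense set -/

theorem exists_pattern {F : Set C} (hF : CND F) (n : ℕ) :
    ∃ h, n ≤ h ∧ ∃ s : C, ∀ x : C, (∀ i, n ≤ i → i < h → x i = s i) → x ∉ F := by
  classical
  have key : ∀ S : Finset (Fin n → Bool), ∃ h, n ≤ h ∧ ∃ s : C, ∀ x : C,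
      (fun i : Fin n => x i) ∈ S → (∀ i, n ≤ i → i < h → x i = s i) → x ∉ F := by
    intro S
    induction S using Finset.induction_on with
    | empty => exact ⟨n, le_rfl, fun _ => false, fun x hx => by simp at hx⟩
    | insert p S hp ih =>
      obtain ⟨h, hn, s, hs⟩ := ih
      let x0 : C := fun i => if hi : i < n then p ⟨i, hi⟩ else s i
      obtain ⟨y, hy, hyF⟩ := hF.exists_notMem (isOpen_cyl x0 h) ⟨x0, self_mem_cyl x0 h⟩
      obtain ⟨m, hm⟩ := exists_cyl_subset hF.1.isOpen_compl (show y ∈ Fᶜ from hyF)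
      refine ⟨max h m, hn.trans (le_max_left _ _), y, fun x hx hxy => ?_⟩
      rcases Finset.mem_insert.1 hx with hx | hx
      · have : x ∈ cyl y m := by
          intro i hi
          by_cases hin : i < n
          · have h1 : x i = p ⟨i, hin⟩ := congrFun hx ⟨i, hin⟩
            have h2 : y i = x0 i := hy i (hin.trans_le hn)
            rw [h1, h2]
            simp [x0, hin]
          · exact hxy i (not_lt.1 hin) (hi.trans_le (le_max_right _ _))
        exact hm this
      · refine hs x hx fun i hi1 hi2 => ?_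
        rw [hxy i hi1 (hi2.trans_le (le_max_left _ _)), hy i hi2]
        simp [x0, not_lt.2 hi1]
  obtain ⟨h, hn, s, hs⟩ := key Finset.univ
  exact ⟨h, hn, s, fun x hx => hs x (Finset.mem_univ _) hx⟩

/-- A monotone bound for the lengths of the patterns. -/
theorem exists_pattern_mono {F : Set C} (hF : CND F) :
    ∃ h : ℕ → ℕ, Monotone h ∧ (∀ n, n ≤ h n) ∧ ∀ n, ∃ s : C, ∀ x : C,
      (∀ i, n ≤ i → i < h n → x i = s i) → x ∉ F := by
  choose h hn s hs using exists_pattern hF
  refine ⟨fun n => (Finset.range (n + 1)).sup h, ?_, ?_, ?_⟩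
  · intro m n hmn
    exact Finset.sup_mono (Finset.range_mono (by omega))
  · intro n
    exact (hn n).trans (Finset.le_sup (f := h) (Finset.mem_range.2 (Nat.lt_succ_self n)))
  · intro n
    refine ⟨s n, fun x hx => hs n x fun i h1 h2 => hx i h1 (h2.trans_le ?_)⟩
    exact Finset.le_sup (f := h) (Finset.mem_range.2 (Nat.lt_succ_self n))

end Pool.Agent.Lib.MP_10f401_gt
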