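import Pool.Agent.Lib.MP_10f401_gt.Basic

/-!
# The basic step of the construction
-/

set_option autoImplicit false

namespace Pool.Agent.Lib.MP_10f401_gt

open Set Filter
open scoped Cardinal

/-- The set of points missing all patterns `s n` on `[n, H n)`, `n ∈ B`. -/
theorem cnd_patterns {B : Set ℕ} (hB : ∀ N, ∃ n ∈ B, N ≤ n) (H : ℕ → ℕ) (s : ℕ → C) :
    CND {u : C | ∀ n ∈ B, ¬ ∀ i, n ≤ i → i < H n → u i = s n i} := by
  have hcl : IsClosed {u : C | ∀ n ∈ B, ¬ ∀ i, n ≤ i → i < H n → u i = s n i} := by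
    have : {u : C | ∀ n ∈ B, ¬ ∀ i, n ≤ i → i < H n → u i = s n i} =
        ⋂ n ∈ B, {u : C | ∀ i, n ≤ i → i < H n → u i = s n i}ᶜ := by
      ext u; simp
    rw [this]
    refine isClosed_biInter fun n _ => ?_
    refine IsOpen.isClosed_compl (isClopen_of_finite (H n) fun x y hxy => ?_).2
    exact ⟨fun h i h1 h2 => (hxy i h2).symm.trans (h i h1 h2),
      fun h i h1 h2 => (hxy i h2).trans (h i h1 h2)⟩
  refine cnd_of_cyl hcl fun x m => ?_
  obtain ⟨n, hn, hmn⟩ := hB m
  refine ⟨fun i => if i < n then x i else s n i, fun i hi => by simp [hi.trans_le hmn], ?_⟩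
  intro h
  exact h n hn fun i h1 _ => by simp [not_lt.2 h1]

/-- A sparse set `range a` such that all the sets `F i + P(range a)` are meager. -/
theorem exists_sparse {ι : Type} (F : ι → Set C) (hF : ∀ i, CND (F i)) (h : #ι < covM)
    (g : ℕ → ℕ) : ∃ a : ℕ → ℕ, (∀ k, a k + 1 < a (k + 1)) ∧ (∀ n, g n < a n) ∧
      ∀ i, IsMeagre {u : C | ∃ v ∈ F i, ∀ k, k ∉ range a → u k = v k} := by
  choose H hmono hle hpat using fun i => exists_pattern_mono (hF i)
  obtain ⟨f, hf⟩ := exists_guess (fun i m => H i (H i (m + 1) + 1)) h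
  let nxt : ℕ → ℕ := fun m => m + 2 + ∑ k ∈ Finset.range (m + 2), g k +
    ∑ k ∈ Finset.range (m + 1), f k
  let a : ℕ → ℕ := fun n => Nat.rec (g 0 + 1) (fun _ r => nxt r) n
  have ha0 : a 0 = g 0 + 1 := rfl
  have hasucc : ∀ k, a (k + 1) = nxt (a k) := fun k => rfl
  have hstep : ∀ k, a k + 1 < a (k + 1) := by
    intro k
    rw [hasucc]
    simp only [nxt]
    omega
  have hsm : StrictMono a := strictMono_nat_of_lt_succ fun k => by have := hstep k; omega
  refine ⟨a, hstep, ?_, ?_⟩
  · intro n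
    rcases n with _ | k
    · rw [ha0]; omega
    · rw [hasucc]
      have h1 : g (k + 1) ≤ ∑ j ∈ Finset.range (a k + 2), g j :=
        Finset.single_le_sum (f := g) (fun _ _ => Nat.zero_le _)
          (Finset.mem_range.2 (by have := hsm.le_apply (x := k); omega))
      simp only [nxt]
      omega
  · intro i
    choose s hs using hpat i
    let B : Set ℕ := {n | ∀ k, n ≤ k → k < H i n → k ∉ range a}
    have hB : ∀ N, ∃ n ∈ B, N ≤ n := by
      intro N
      obtain ⟨m, hm, hfm⟩ := hf i (max N (a 0))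
      have hm0 : a 0 ≤ m := (le_max_right _ _).trans hm
      have hmN : N ≤ m := (le_max_left _ _).trans hm
      have hex : ∃ j, m < a j := ⟨m + 1, (Nat.lt_succ_self m).trans_le (hsm.le_apply (x := m + 1))⟩
      obtain ⟨j, hj, hjmin⟩ : ∃ j, m < a j ∧ ∀ j' < j, ¬ m < a j' := by
        obtain ⟨j, hj, hmin⟩ := WellFounded.has_min (wellFounded_lt (α := ℕ)) {j | m < a j} hex
        exact ⟨j, hj, fun j' hj' h' => hmin j' h' hj'⟩
      obtain ⟨k, rfl⟩ : ∃ k, j = k + 1 := by
        rcases j with _ | k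
        · omega
        · exact ⟨k, rfl⟩
      have hk : a k ≤ m := not_lt.1 (hjmin k (Nat.lt_succ_self k))
      by_cases hc : H i (m + 1) ≤ a (k + 1)
      · refine ⟨m + 1, ?_, by omega⟩
        rintro l hl1 hl2 ⟨j, rfl⟩
        have h1 : k < j := hsm.lt_iff_lt.1 (show a k < a j by omega)
        have h2 : j < k + 1 := hsm.lt_iff_lt.1 (show a j < a (k + 1) by omega)
        omega
      · rw [not_le] at hc
        refine ⟨a (k + 1) + 1, ?_, by omega⟩
        rintro l hl1 hl2 ⟨j, rfl⟩
        have h1 : k + 1 < j := hsm.lt_iff_lt.1 (show a (k + 1) < a j by omega)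
        have h2 : H i (a (k + 1) + 1) ≤ H i (H i (m + 1) + 1) := hmono i (by omega)
        have h3 : f m ≤ ∑ k' ∈ Finset.range (a (k + 1) + 1), f k' :=
          Finset.single_le_sum (f := f) (fun _ _ => Nat.zero_le _)
            (Finset.mem_range.2 (by omega))
        have h4 : f m ≤ a (k + 2) := by
          rw [show a (k + 2) = nxt (a (k + 1)) from rfl]
          simp only [nxt]
          omega
        have h5 : j < k + 2 := hsm.lt_iff_lt.1 (show a j < a (k + 2) by omega)
        omega
    refine (cnd_patterns hB (H i) s).isMeagre.mono ?_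
    rintro u ⟨v, hv, huv⟩ n hn hmatch
    refine hs n v (fun l h1 h2 => ?_) hv
    rw [← huv l (hn l h1 h2)]
    exact hmatch l h1 h2

theorem cnd_almost_fixed {a : ℕ → ℕ} (ha : ∀ k, a k + 1 < a (k + 1)) (x : C) (N : ℕ) :
    CND {u : C | ∀ i, N ≤ i → i ∉ range a → u i = x i} := by
  have hsm : StrictMono a := strictMono_nat_of_lt_succ fun k => by have := ha k; omega
  have hcl : IsClosed {u : C | ∀ i, N ≤ i → i ∉ range a → u i = x i} := by
    have : {u : C | ∀ i, N ≤ i → i ∉ range a → u i = x i} =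
        ⋂ i : ℕ, ⋂ _ : N ≤ i, ⋂ _ : i ∉ range a, {u : C | u i = x i} := by
      ext u; simp
    rw [this]
    refine isClosed_iInter fun i => isClosed_iInter fun _ => isClosed_iInter fun _ => ?_
    exact isClosed_eq (continuous_apply i) continuous_const
  refine cnd_of_cyl hcl fun y m => ?_
  let i0 := a (max N m) + 1
  have hi0 : i0 ∉ range a := by
    rintro ⟨j, hj⟩
    have h1 : max N m < j := hsm.lt_iff_lt.1 (show a (max N m) < a j by omega)
    have h2 : j < max N m + 1 := hsm.lt_iff_lt.1 (show a j < a (max N m + 1) by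
      have := ha (max N m); omega)
    omega
  have hge : max N m ≤ a (max N m) := hsm.le_apply
  refine ⟨fun i => if i < m then y i else !(x i), fun i hi => by simp [hi], fun h => ?_⟩
  have h1 := h i0 (by have := le_max_left N m; omega) hi0
  have h2 : ¬ i0 < m := by have := le_max_right N m; omega
  simp [h2] at h1

/-- The basic step. -/
theorem exists_stage {κ : Cardinal.{0}} (hκ : κ = covM) (hreg : κ.IsRegular) {X : Set C}
    (hX : IsLuzin κ X) {ι : Type} (F : ι → Set C) (hF : ∀ i, CND (F i)) (hι : #ι < κ)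
    (g : ℕ → ℕ) :
    ∃ v : C, (∀ i, v ∉ F i) ∧ (∀ x ∈ X, {i | x i ≠ v i}.Infinite) ∧
      ∃ x ∈ X, ∀ n, ((Finset.range (g n + 1)).filter (fun i => x i ≠ v i)).card ≤ n := by
  classical
  obtain ⟨a, ha, hga, hmea⟩ := exists_sparse F hF (hκ ▸ hι) g
  have hsm : StrictMono a := strictMono_nat_of_lt_succ fun k => by have := ha k; omega
  -- the point `x`
  obtain ⟨x, hxX, hx⟩ : ∃ x ∈ X, ∀ i, x ∉ {u : C | ∃ v ∈ F i, ∀ k, k ∉ range a → u k = v k} := by
    by_contra hcon
    push Not at hcon
    have h1 : #(⋃ i, (X ∩ {u : C | ∃ v ∈ F i, ∀ k, k ∉ range a → u k = v k} : Set C)) < κ :=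
      (Cardinal.card_iUnion_lt_iff_forall_of_isRegular hreg hι).2 fun i => hX.2 _ (hmea i)
    have h2 : #X ≤ #(⋃ i, (X ∩ {u : C | ∃ v ∈ F i, ∀ k, k ∉ range a → u k = v k} : Set C)) := by
      apply Cardinal.mk_le_mk_of_subset
      intro u hu
      obtain ⟨i, hi⟩ := hcon u hu
      exact mem_iUnion.2 ⟨i, hu, hi⟩
    exact absurd (hX.1.trans h2) (not_le.2 h1)
  -- the candidates
  let w : C → C := fun z k => if h : ∃ j, a j = k then z (Classical.choose h) else x k
  have hwa : ∀ z j, w z (a j) = z j := by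
    intro z j
    have h : ∃ j', a j' = a j := ⟨j, rfl⟩
    have h1 : w z (a j) = z (Classical.choose h) := dif_pos h
    rw [h1, hsm.injective (Classical.choose_spec h)]
  have hwx : ∀ z k, k ∉ range a → w z k = x k := by
    intro z k hk
    exact dif_neg hk
  have hwinj : Function.Injective w := by
    intro z z' h
    funext j
    rw [← hwa z j, ← hwa z' j, h]
  let Q : Set C := ⋃ N : ℕ, {u : C | ∀ i, N ≤ i → i ∉ range a → u i = x i}
  have hQ : IsMeagre Q := isMeagre_iUnion_cnd fun N => cnd_almost_fixed ha x N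
  let bad : Set C := {z | ∃ x' ∈ X, {i | x' i ≠ w z i}.Finite}
  have hbad : ∀ z : bad, ∃ x' ∈ X, {i | x' i ≠ w z i}.Finite := fun z => z.2
  choose b hbX hbfin using hbad
  have hbQ : ∀ z : bad, b z ∈ X ∩ Q := by
    intro z
    refine ⟨hbX z, ?_⟩
    obtain ⟨N, hN⟩ := (hbfin z).bddAbove
    refine mem_iUnion.2 ⟨N + 1, fun i hi hia => ?_⟩
    rw [← hwx z i hia]
    by_contra hne
    have := hN (show i ∈ {i | b z i ≠ w z i} from hne)
    omega
  have hcard : #(bad) < κ := by
    let e : bad → (X ∩ Q : Set C) × Finset ℕ := fun z => (⟨b z, hbQ z⟩, (hbfin z).toFinset)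
    have he : Function.Injective e := by
      intro z z' h
      have h1 : b z = b z' := congrArg Subtype.val (congrArg Prod.fst h)
      have h2 : (hbfin z).toFinset = (hbfin z').toFinset := congrArg Prod.snd h
      have h3 : ∀ i, b z i ≠ w z i ↔ b z' i ≠ w z' i := by
        intro i
        have := congrArg (fun s : Finset ℕ => i ∈ s) h2
        simpa using this
      apply Subtype.ext
      apply hwinj
      funext i
      have h4 := h3 i
      rw [← h1] at h4
      rcases hb : b z i <;> rcases hw : w z i <;> rcases hw' : w z' i <;> simp_all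
    have h1 : #(bad) ≤ #((X ∩ Q : Set C) × Finset ℕ) := Cardinal.mk_le_of_injective he
    refine h1.trans_lt ?_
    rw [Cardinal.mk_prod, Cardinal.lift_id, Cardinal.lift_id]
    refine Cardinal.mul_lt_of_lt hreg.aleph0_le (hX.2 Q hQ) ?_
    rw [Cardinal.mk_finset_of_infinite, Cardinal.mk_nat, hκ]
    exact aleph0_lt_covM
  obtain ⟨z, hz⟩ : ∃ z, z ∉ bad := by
    by_contra hcon
    push Not at hcon
    have h1 : #(C) ≤ #(bad) := by
      rw [eq_univ_iff_forall.2 hcon, Cardinal.mk_univ]
    have h2 : #(C) = 𝔠 := by simp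
    rw [h2] at h1
    exact absurd ((hκ ▸ covM_le_continuum).trans h1) (not_le.2 hcard)
  refine ⟨w z, ?_, ?_, x, hxX, ?_⟩
  · intro i hi
    exact hx i ⟨w z, hi, fun k hk => (hwx z k hk).symm⟩
  · intro x' hx' hfin
    exact hz ⟨x', hx', hfin⟩
  · intro n
    have h1 : (Finset.range (g n + 1)).filter (fun i => x i ≠ w z i) ⊆
        (Finset.range n).image a := by
      intro i hi
      rw [Finset.mem_filter, Finset.mem_range] at hi
      have hia : i ∈ range a := by
        by_contra hia
        exact hi.2 (hwx z i hia).symm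
      obtain ⟨j, rfl⟩ := hia
      refine Finset.mem_image.2 ⟨j, Finset.mem_range.2 ?_, rfl⟩
      by_contra hj
      rw [not_lt] at hj
      have := hsm.monotone hj
      have := hga n
      omega
    exact (Finset.card_le_card h1).trans (Finset.card_image_le.trans (by simp))

end Pool.Agent.Lib.MP_10f401_gt
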