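import Pool.Agent.Lib.MP_10f401_gt.Sections
import Pool.Agent.Lib.MP_10f401_gt.Stage

/-!
# Cofinal families of meager sets and dominating families of functions
-/

set_option autoImplicit false

namespace Pool.Agent.Lib.MP_10f401_gt

open Set Filter
open scoped Cardinal

/-- Simultaneous patterns for finitely many nowhere dense sets. -/
theorem exists_pattern_upto {N : ℕ → Set C} (hN : ∀ k, CND (N k)) (k n : ℕ) :
    ∃ h, n ≤ h ∧ ∃ s : C, ∀ x : C, (∀ i, n ≤ i → i < h → x i = s i) → ∀ j < k, x ∉ N j := by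
  induction k with
  | zero => exact ⟨n, le_rfl, fun _ => false, fun x _ j hj => absurd hj (Nat.not_lt_zero j)⟩
  | succ k ih =>
    obtain ⟨h, hn, s, hs⟩ := ih
    obtain ⟨h', hn', s', hs'⟩ := exists_pattern (hN k) h
    refine ⟨h', hn.trans hn', fun i => if i < h then s i else s' i, fun x hx j hj => ?_⟩
    rcases Nat.lt_succ_iff_lt_or_eq.1 hj with hj | rfl
    · refine hs x (fun i h1 h2 => ?_) j hj
      rw [hx i h1 (h2.trans_le hn')]
      simp [h2]
    · refine hs' x fun i h1 h2 => ?_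
      rw [hx i (hn.trans h1) h2]
      simp [not_lt.2 h1]

/-- The meager set of points which are eventually different from `z` on the intervals
`[m, h m)`. -/
def eventuallyDiff (z : C) (h : ℕ → ℕ) (m0 : ℕ) : Set C :=
  {y | ∀ m, m0 ≤ m → ∃ i, m ≤ i ∧ i < h m ∧ y i ≠ z i}

theorem cnd_eventuallyDiff (z : C) (h : ℕ → ℕ) (m0 : ℕ) : CND (eventuallyDiff z h m0) := by
  have hcl : IsClosed (eventuallyDiff z h m0) := by
    have : eventuallyDiff z h m0 =
        ⋂ m : ℕ, ⋂ _ : m0 ≤ m, {y : C | ∃ i, m ≤ i ∧ i < h m ∧ y i ≠ z i} := by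
      ext x; simp [eventuallyDiff]
    rw [this]
    refine isClosed_iInter fun m => isClosed_iInter fun _ =>
      (isClopen_of_finite (h m) fun x y hxy => ?_).1
    exact ⟨fun ⟨i, h1, h2, h3⟩ => ⟨i, h1, h2, by rw [← hxy i h2]; exact h3⟩,
      fun ⟨i, h1, h2, h3⟩ => ⟨i, h1, h2, by rw [hxy i h2]; exact h3⟩⟩
  refine cnd_of_cyl hcl fun x m => ?_
  refine ⟨fun i => if i < m then x i else z i, fun i hi => by simp [hi], fun h => ?_⟩
  obtain ⟨i, h1, -, h3⟩ := h (max m0 m) (le_max_left _ _)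
  have : ¬ i < m := by have := le_max_right m0 m; omega
  simp [this] at h3

/-- Every meager set is contained in a set of the form `⋃ m0, eventuallyDiff z h m0`, where `z` is
taken in a given nonmeager set and `h` in a given dominating family. -/
theorem exists_eventuallyDiff {Z : Set C} (hZ : ¬ IsMeagre Z) {D : Set (ℕ → ℕ)}
    (hD : ∀ g : ℕ → ℕ, ∃ h ∈ D, ∀ᶠ n in atTop, g n ≤ h n) {M : Set C} (hM : IsMeagre M) :
    ∃ z ∈ Z, ∃ h ∈ D, M ⊆ ⋃ m0, eventuallyDiff z h m0 := by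
  obtain ⟨N, hN, hMN⟩ := exists_cnd_cover hM
  choose H hH s hs using fun n : ℕ => exists_pattern_upto hN n n
  let f : ℕ → ℕ := fun k => Nat.rec (motive := fun _ => ℕ) 0 (fun _ r => H r + 1) k
  have hf : ∀ k, f (k + 1) = H (f k) + 1 := fun k => rfl
  have hsm : StrictMono f := strictMono_nat_of_lt_succ fun k => by
    rw [hf]; exact Nat.lt_succ_of_le (hH _)
  -- the point coding all the patterns
  obtain ⟨x, hx⟩ : ∃ x : C, ∀ k i, f k ≤ i → i < f (k + 1) → x i = s (f k) i := by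
    have hex : ∀ i, ∃ k, f k ≤ i ∧ i < f (k + 1) := by
      intro i
      have h1 : ∃ j, i < f j := ⟨i + 1, (Nat.lt_succ_self i).trans_le hsm.le_apply⟩
      obtain ⟨j, hj, hjmin⟩ := WellFounded.has_min (wellFounded_lt (α := ℕ)) {j | i < f j} h1
      rcases j with _ | k
      · exact absurd hj (Nat.not_lt_zero i)
      · exact ⟨k, not_lt.1 fun h => hjmin k h (Nat.lt_succ_self k), hj⟩
    choose k hk1 hk2 using hex
    refine ⟨fun i => s (f (k i)) i, fun k' i h1 h2 => ?_⟩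
    have h3 : k i < k' + 1 := hsm.lt_iff_lt.1 ((hk1 i).trans_lt h2)
    have h4 : k' < k i + 1 := hsm.lt_iff_lt.1 (h1.trans_lt (hk2 i))
    have h5 : k i = k' := by omega
    simp only [h5]
  -- a point of `Z` agreeing with `x` on infinitely many intervals
  obtain ⟨z, hzZ, hz⟩ : ∃ z ∈ Z, ∀ N, ∃ k, N ≤ k ∧ ∀ i, f k ≤ i → i < f (k + 1) → z i = x i := by
    by_contra hcon
    push Not at hcon
    apply hZ
    have h1 : IsMeagre (⋃ N : ℕ, {u : C | ∀ n ∈ {n | ∃ k, N ≤ k ∧ f k = n},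
        ¬ ∀ i, n ≤ i → i < H n + 1 → u i = x i}) := by
      refine isMeagre_iUnion_cnd fun N => cnd_patterns (fun m => ?_) (fun n => H n + 1) (fun _ => x)
      refine ⟨f (max N m), ⟨max N m, le_max_left _ _, rfl⟩, ?_⟩
      exact (le_max_right N m).trans hsm.le_apply
    refine h1.mono fun z hz => ?_
    obtain ⟨N, hN⟩ := hcon z hz
    refine mem_iUnion.2 ⟨N, ?_⟩
    rintro _ ⟨k, hk, rfl⟩ hall
    obtain ⟨i, h1, h2, h3⟩ := hN k hk
    exact h3 (hall i h1 h2)
  choose g hg1 hg2 using hz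
  obtain ⟨h, hhD, hh⟩ := hD fun m => f (g m + 1)
  rw [eventually_atTop] at hh
  obtain ⟨m1, hm1⟩ := hh
  refine ⟨z, hzZ, h, hhD, fun y hy => ?_⟩
  obtain ⟨j, hj⟩ := mem_iUnion.1 (hMN hy)
  refine mem_iUnion.2 ⟨max m1 (j + 1), fun m hm => ?_⟩
  have hmm : m ≤ f (g m) := (hg1 m).trans hsm.le_apply
  have hjm : j < f (g m) := by
    have := le_max_right m1 (j + 1)
    omega
  -- `y` differs from `x` on the interval
  have hdiff : ∃ i, f (g m) ≤ i ∧ i < H (f (g m)) ∧ y i ≠ x i := by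
    by_contra hcon
    push Not at hcon
    refine hs (f (g m)) y (fun i h1 h2 => ?_) j hjm hj
    rw [hcon i h1 h2]
    exact hx (g m) i h1 (by rw [hf]; omega)
  obtain ⟨i, h1, h2, h3⟩ := hdiff
  have h4 : i < f (g m + 1) := by rw [hf]; omega
  refine ⟨i, hmm.trans h1, h4.trans_le (hm1 m ((le_max_left _ _).trans hm)), ?_⟩
  rw [hg2 m i h1 h4]
  exact h3

/-- The families used in the construction, indexed by an initial ordinal. -/
theorem exists_families {κ : Cardinal.{0}} (hκ : ℵ₀ ≤ κ) (hd : dNum ≤ κ) {Z : Set C}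
    (hZ : ¬ IsMeagre Z) (hZc : #Z ≤ κ) {I : Type} (hI : #I = κ) :
    ∃ (Fam : I → ℕ → Set P) (G : I → ℕ → ℕ), (∀ u n, CND (Fam u n)) ∧
      (∀ M : Set P, IsMeagre M → ∃ u, M ⊆ ⋃ n, Fam u n) ∧
      (∀ g : ℕ → ℕ, ∃ u, ∀ n, g n ≤ G u n) := by
  obtain ⟨D, hD, hDc⟩ := dNum_mem
  have hsurj : ∀ T : Type, Nonempty T → #T ≤ κ → ∃ e : I → T, Function.Surjective e := by
    intro T hT h
    rw [← hI] at h
    obtain ⟨e⟩ := h
    exact ⟨Function.invFun e, Function.invFun_surjective e.injective⟩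
  have hZne : Nonempty Z := by
    rw [nonempty_subtype]
    exact nonempty_of_not_isMeagre hZ
  have hDne : Nonempty D := by
    obtain ⟨h, hh, -⟩ := hD fun _ => 0
    exact ⟨⟨h, hh⟩⟩
  have hDκ : #D ≤ κ := hDc.le.trans hd
  obtain ⟨e, he⟩ := hsurj (Z × D) inferInstance (by
    rw [Cardinal.mk_prod, Cardinal.lift_id, Cardinal.lift_id]
    exact (mul_le_mul' hZc hDκ).trans (Cardinal.mul_eq_self hκ).le)
  obtain ⟨e', he'⟩ := hsurj (D × ℕ) inferInstance (by
    rw [Cardinal.mk_prod, Cardinal.lift_id, Cardinal.lift_id, Cardinal.mk_nat]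
    exact (mul_le_mul' hDκ hκ).trans (Cardinal.mul_eq_self hκ).le)
  refine ⟨fun u n => theta.symm ⁻¹' eventuallyDiff (e u).1 (e u).2 n,
    fun u n => (e' u).1.1 n + (e' u).2, ?_, ?_, ?_⟩
  · intro u n
    exact (cnd_eventuallyDiff _ _ n).preimage_homeo theta.symm
  · intro M hM
    have h1 : IsMeagre (theta ⁻¹' M) :=
      hM.preimage_of_isOpenMap theta.continuous theta.isOpenMap
    obtain ⟨z, hz, h, hh, hsub⟩ := exists_eventuallyDiff hZ hD h1
    obtain ⟨u, hu⟩ := he (⟨z, hz⟩, ⟨h, hh⟩)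
    refine ⟨u, fun p hp => ?_⟩
    have h2 : theta.symm p ∈ theta ⁻¹' M := by
      rw [mem_preimage, Homeomorph.apply_symm_apply]
      exact hp
    obtain ⟨n, hn⟩ := mem_iUnion.1 (hsub h2)
    refine mem_iUnion.2 ⟨n, ?_⟩
    rw [mem_preimage, hu]
    exact hn
  · intro g
    obtain ⟨h, hh, hgh⟩ := hD g
    rw [eventually_atTop] at hgh
    obtain ⟨n0, hn0⟩ := hgh
    obtain ⟨u, hu⟩ := he' (⟨h, hh⟩, ∑ i ∈ Finset.range n0, g i)
    refine ⟨u, fun n => ?_⟩
    simp only [hu]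
    by_cases hn : n0 ≤ n
    · exact (hn0 n hn).trans (Nat.le_add_right _ _)
    · have := Finset.single_le_sum (f := g) (fun _ _ => Nat.zero_le _)
        (Finset.mem_range.2 (not_le.1 hn))
      exact this.trans (Nat.le_add_left _ _)

end Pool.Agent.Lib.MP_10f401_gt
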