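import Pool.Agent.Lib.MP_10f401_gt.Stage
import Pool.Agent.Lib.MP_10f401_gt.Families

/-!
# The transfinite construction
-/

set_option autoImplicit false

namespace Pool.Agent.Lib.MP_10f401_gt

open Set Filter
open scoped Cardinal

/-- Construction by transfinite recursion. -/
theorem exists_rec {I T : Type} [LinearOrder I] [WellFoundedLT I]
    (Q : ∀ α : I, (Iio α → T) → T → Prop) (h : ∀ α p, ∃ v, Q α p v) :
    ∃ y : I → T, ∀ α, Q α (fun β => y β) (y α) := by
  choose F hF using h
  let y : I → T := (wellFounded_lt (α := I)).fix fun α ih => F α fun β => ih β.1 β.2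
  refine ⟨y, fun α => ?_⟩
  have h1 : y α = F α (fun β => y β) :=
    WellFounded.fix_eq (wellFounded_lt (α := I)) (fun α ih => F α fun β => ih β.1 β.2) α
  rw [h1]
  exact hF α _

/-- The properties of the constructed points. -/
theorem exists_points {κ : Cardinal.{0}} (hκ : κ = covM) (hreg : κ.IsRegular) {X : Set C}
    (hX : IsLuzin κ X) {I : Type} [LinearOrder I] [WellFoundedLT I] (hI : ∀ α : I, #(Iio α) < κ)
    {Fam : I → ℕ → Set P} (G : I → ℕ → ℕ) :
    ∃ y : I → C,
      (∀ α, ∀ l : List I, (∀ β ∈ l, β < α) → ∀ u < α, ∀ n, CND (secL (Fam u n) (l.map y)) →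
        CND (secL (Fam u n) ((α :: l).map y))) ∧
      (∀ α, ∀ x ∈ X, {i | x i ≠ y α i}.Infinite) ∧
      (∀ α, ∃ x ∈ X, ∀ n,
        ((Finset.range (G α n + 1)).filter (fun i => x i ≠ y α i)).card ≤ n) := by
  classical
  obtain ⟨y, hy⟩ := exists_rec (I := I) (T := C)
    (fun α p v => (∀ l : List (Iio α), ∀ u : Iio α, ∀ n, CND (secL (Fam u n) (l.map p)) →
        ∀ W ∈ TopologicalSpace.countableBasis P, W.Nonempty →
          v ∉ big (secL (Fam u n) (l.map p)) W) ∧
      (∀ x ∈ X, {i | x i ≠ v i}.Infinite) ∧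
      (∃ x ∈ X, ∀ n, ((Finset.range (G α n + 1)).filter (fun i => x i ≠ v i)).card ≤ n)) (by
    intro α p
    let ι : Type := (Iio α × ℕ) × (List (Iio α) × TopologicalSpace.countableBasis P)
    have hι : #ι < κ := by
      have hunc : ℵ₀ < κ := hκ ▸ aleph0_lt_covM
      have h1 : #(Iio α × ℕ) < κ := by
        rw [Cardinal.mk_prod, Cardinal.lift_id, Cardinal.lift_id]
        exact Cardinal.mul_lt_of_lt hunc.le (hI α) (by simpa using hunc)
      have h2 : #(List (Iio α)) < κ :=
        (Cardinal.mk_list_le_max _).trans_lt (max_lt hunc (hI α))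
      have h3 : #(TopologicalSpace.countableBasis P) < κ :=
        (Cardinal.mk_le_aleph0_iff.2
          (TopologicalSpace.countable_countableBasis P)).trans_lt hunc
      change #((Iio α × ℕ) × (List (Iio α) × TopologicalSpace.countableBasis P)) < κ
      rw [Cardinal.mk_prod, Cardinal.lift_id, Cardinal.lift_id]
      refine Cardinal.mul_lt_of_lt hunc.le h1 ?_
      rw [Cardinal.mk_prod, Cardinal.lift_id, Cardinal.lift_id]
      exact Cardinal.mul_lt_of_lt hunc.le h2 h3
    let S : ι → Set C := fun t =>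
      if CND (secL (Fam t.1.1 t.1.2) (t.2.1.map p)) ∧ (t.2.2 : Set P).Nonempty then
        big (secL (Fam t.1.1 t.1.2) (t.2.1.map p)) t.2.2 else ∅
    have hS : ∀ t, CND (S t) := by
      intro t
      by_cases h : CND (secL (Fam t.1.1 t.1.2) (t.2.1.map p)) ∧ (t.2.2 : Set P).Nonempty
      · simp only [S, h, and_self, if_true]
        exact cnd_big h.1 (TopologicalSpace.isOpen_of_mem_countableBasis t.2.2.2) h.2
      · simp only [S, h, if_false]
        exact ⟨isClosed_empty, isNowhereDense_empty⟩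
    obtain ⟨v, hv1, hv2, hv3⟩ := exists_stage hκ hreg hX S hS hι (G α)
    refine ⟨v, ?_, hv2, hv3⟩
    intro l u n hcnd W hW hne hmem
    apply hv1 ((u, n), (l, ⟨W, hW⟩))
    simp only [S, hcnd, hne, and_self, if_true]
    exact hmem)
  refine ⟨y, ?_, fun α => (hy α).2.1, fun α => (hy α).2.2⟩
  intro α l hl u hu n hcnd
  rw [List.map_cons, secL_cons]
  apply cnd_section hcnd.1
  intro W hW hne
  obtain ⟨l', rfl⟩ : ∃ l' : List (Iio α), l'.map Subtype.val = l := by
    lift l to List (Iio α) using hl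
    exact ⟨l, rfl⟩
  have h1 : (l'.map Subtype.val).map y = l'.map (fun β : Iio α => y β.1) := by
    rw [List.map_map]; rfl
  rw [h1] at hcnd ⊢
  exact (hy α).1 l' ⟨u, hu⟩ n hcnd W hW hne

/-- Iterated sections along decreasing lists. -/
theorem cnd_secL {I : Type} [LinearOrder I] {Fam : I → ℕ → Set P} (hFam : ∀ u n, CND (Fam u n))
    {y : I → C}
    (hy : ∀ α, ∀ l : List I, (∀ β ∈ l, β < α) → ∀ u < α, ∀ n, CND (secL (Fam u n) (l.map y)) →
        CND (secL (Fam u n) ((α :: l).map y))) (u : I) (n : ℕ) :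
    ∀ l : List I, l.Pairwise (fun a c => c < a) → (∀ β ∈ l, u < β) →
      CND (secL (Fam u n) (l.map y)) := by
  intro l
  induction l with
  | nil => intro _ _; exact hFam u n
  | cons α l ih =>
    intro hp hu
    rw [List.pairwise_cons] at hp
    exact hy α l hp.1 u (hu α (by simp)) n (ih hp.2 fun β hβ => hu β (by simp [hβ]))

/-- Genericity: every closed nowhere dense subset of a finite power is avoided by all increasing
tuples with large indices. -/
theorem exists_avoid {I : Type} [LinearOrder I] {Fam : I → ℕ → Set P}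
    (hFam : ∀ u n, CND (Fam u n)) (hcof : ∀ M : Set P, IsMeagre M → ∃ u, M ⊆ ⋃ n, Fam u n)
    {y : I → C}
    (hy : ∀ α, ∀ l : List I, (∀ β ∈ l, β < α) → ∀ u < α, ∀ n, CND (secL (Fam u n) (l.map y)) →
        CND (secL (Fam u n) ((α :: l).map y))) {j : ℕ} {M : Set (Fin j → C)} (hM : CND M) :
    ∃ u : I, ∀ b : Fin j → I, StrictMono b → (∀ i, u < b i) → (fun i => y (b i)) ∉ M := by
  obtain ⟨u, hu⟩ := hcof _ (cnd_cylinder hM).isMeagre
  refine ⟨u, fun b hb hub hmem => ?_⟩
  have h1 : ∀ n, CND (secL (Fam u n) ((dl j b).map y)) := fun n =>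
    cnd_secL hFam hy u n _ (pairwise_dl j b hb) fun β hβ => by
      obtain ⟨i, rfl⟩ := mem_dl _ _ _ hβ
      exact hub i
  have h2 : (univ : Set P) ⊆ ⋃ n, secL (Fam u n) ((dl j b).map y) := by
    intro z _
    have h3 : appL ((dl j b).map y) z ∈ {p : P | (fun i : Fin j => p i) ∈ M} := by
      have : (fun i : Fin j => appL ((dl j b).map y) z i) = fun i => y (b i) := by
        funext i
        exact appL_dl_lt y j b z i
      rw [mem_ofPred_eq, this]
      exact hmem
    obtain ⟨n, hn⟩ := mem_iUnion.1 (hu h3)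
    exact mem_iUnion.2 ⟨n, hn⟩
  exact not_isMeagre_of_isOpen isOpen_univ univ_nonempty ((isMeagre_iUnion_cnd h1).mono h2)

end Pool.Agent.Lib.MP_10f401_gt
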