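import Mathlib

/-!
# Definitions for MP_10f401_gt (products of `cov(M)`-Luzin sets)
-/

set_option autoImplicit false

namespace Pool.Agent.Lib.MP_10f401_gt

open Set
open scoped Cardinal

/-- A topological space is Menger: for every sequence of open covers `U n` there are finite
`F n ⊆ U n` such that the union of all members of all `F n` is the whole space. -/
def IsMenger (Z : Type*) [TopologicalSpace Z] : Prop :=
  ∀ U : ℕ → Set (Set Z), (∀ n, (∀ u ∈ U n, IsOpen u) ∧ ⋃₀ U n = univ) →
    ∃ F : ℕ → Set (Set Z), (∀ n, F n ⊆ U n ∧ (F n).Finite) ∧ ⋃ n, ⋃₀ F n = univ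

/-- A topological space is Rothberger: for every sequence of open covers `U n` there are
`V n ∈ U n` such that the union of the `V n` is the whole space. -/
def IsRothberger (Z : Type*) [TopologicalSpace Z] : Prop :=
  ∀ U : ℕ → Set (Set Z), (∀ n, (∀ u ∈ U n, IsOpen u) ∧ ⋃₀ U n = univ) →
    ∃ V : ℕ → Set Z, (∀ n, V n ∈ U n) ∧ ⋃ n, V n = univ

/-- `cov(M)`: the least cardinality of a family of meager subsets of the Cantor space whose union
is the Cantor space. -/
noncomputable def covM : Cardinal.{0} :=
  sInf {c | ∃ F : Set (Set (ℕ → Bool)), (∀ M ∈ F, IsMeagre M) ∧ ⋃₀ F = univ ∧ #F = c}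

/-- The dominating number `𝔡`: the least cardinality of a family of functions `ℕ → ℕ` such that
every function is eventually bounded by a member of the family. -/
noncomputable def dNum : Cardinal.{0} :=
  sInf {c | ∃ D : Set (ℕ → ℕ), (∀ g : ℕ → ℕ, ∃ h ∈ D, ∀ᶠ n in Filter.atTop, g n ≤ h n) ∧ #D = c}

/-- `X` is a `κ`-Luzin set: it has at least `κ` elements, and less than `κ` elements in every
meager set. -/
def IsLuzin (κ : Cardinal.{0}) (X : Set (ℕ → Bool)) : Prop :=
  κ ≤ #X ∧ ∀ M : Set (ℕ → Bool), IsMeagre M → #(X ∩ M : Set (ℕ → Bool)) < κ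

end Pool.Agent.Lib.MP_10f401_gt
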