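import Pool.Agent.Lib.MP_10f401_gt.Rothberger

/-!
# The product is not Menger, and the main theorem
-/

set_option autoImplicit false

namespace Pool.Agent.Lib.MP_10f401_gt

open Set Filter
open scoped Cardinal

theorem exists_common {T : Type*} {W : ℕ → Set T} (hW : Monotone W) {S : Set (Set T)}
    (hS : S.Finite) (h : ∀ u ∈ S, ∃ m, u ⊆ W m) : ∃ m, ∀ u ∈ S, u ⊆ W m := by
  induction S, hS using Set.Finite.induction_on with
  | empty => exact ⟨0, fun u hu => absurd hu (notMem_empty u)⟩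
  | @insert a s ha hs ih =>
    obtain ⟨m, hm⟩ := ih fun u hu => h u (mem_insert_of_mem _ hu)
    obtain ⟨m', hm'⟩ := h a (mem_insert _ _)
    refine ⟨max m m', fun u hu => ?_⟩
    rcases hu with rfl | hu
    · exact hm'.trans (hW (le_max_right _ _))
    · exact (hm u hu).trans (hW (le_max_left _ _))

/-- The number of differences up to `m`. -/
noncomputable def nd (x y : C) (m : ℕ) : ℕ := ((Finset.range (m + 1)).filter fun i => x i ≠ y i).card

theorem nd_mono (x y : C) : Monotone (nd x y) := by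
  intro m m' h
  exact Finset.card_le_card (Finset.filter_subset_filter _ (Finset.range_mono (by omega)))

theorem continuous_nd {X Y : Set C} (m : ℕ) :
    Continuous fun p : X × Y => nd p.1 p.2 m := by
  have h1 : ∀ p : X × Y, nd p.1 p.2 m =
      ∑ i ∈ Finset.range (m + 1), if (p.1 : C) i ≠ (p.2 : C) i then 1 else 0 := by
    intro p
    rw [nd, Finset.card_filter]
  simp_rw [h1]
  refine continuous_finsetSum _ fun i _ => ?_
  have h2 : Continuous fun p : X × Y => ((p.1 : C) i, (p.2 : C) i) :=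
    ((continuous_apply i).comp (continuous_subtype_val.comp continuous_fst)).prodMk
      ((continuous_apply i).comp (continuous_subtype_val.comp continuous_snd))
  exact (continuous_of_discreteTopology (f := fun q : Bool × Bool =>
    if q.1 ≠ q.2 then 1 else 0)).comp h2

theorem not_menger {X : Set C} {I : Type} {y : I → C} {G : I → ℕ → ℕ}
    (hG : ∀ g : ℕ → ℕ, ∃ u, ∀ n, g n ≤ G u n)
    (h1 : ∀ α, ∀ x ∈ X, {i | x i ≠ y α i}.Infinite)
    (h2 : ∀ α, ∃ x ∈ X, ∀ n,
        ((Finset.range (G α n + 1)).filter (fun i => x i ≠ y α i)).card ≤ n) :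
    ¬ IsMenger (X × range y) := by
  intro hM
  let Us : ℕ → ℕ → Set (X × range y) := fun n m => {p | n + 1 ≤ nd p.1 p.2 m}
  have hUs : ∀ n m, IsOpen (Us n m) := by
    intro n m
    exact (isOpen_discrete (Ici (n + 1))).preimage (continuous_nd m)
  have hmono : ∀ n, Monotone (Us n) := by
    intro n m m' h p hp
    exact le_trans (show n + 1 ≤ nd p.1 p.2 m from hp) (nd_mono _ _ h)
  obtain ⟨F, hF, hcov⟩ := hM (fun n => range (Us n)) (by
    intro n
    refine ⟨?_, ?_⟩
    · rintro _ ⟨m, rfl⟩; exact hUs n m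
    · rw [eq_univ_iff_forall]
      rintro ⟨⟨x, hx⟩, ⟨_, α, rfl⟩⟩
      obtain ⟨s, hs, hsc⟩ := (h1 α x hx).exists_subset_card_eq (n + 1)
      refine ⟨Us n (s.sup id), ⟨_, rfl⟩, ?_⟩
      change n + 1 ≤ nd x (y α) (s.sup id)
      rw [← hsc]
      refine Finset.card_le_card fun i hi => ?_
      rw [Finset.mem_filter, Finset.mem_range]
      exact ⟨Nat.lt_succ_of_le (Finset.le_sup (f := id) hi), hs hi⟩)
  have hg : ∀ n, ∃ m, ∀ u ∈ F n, u ⊆ Us n m := by
    intro n
    refine exists_common (hmono n) (hF n).2 fun u hu => ?_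
    obtain ⟨m, rfl⟩ := (hF n).1 hu
    exact ⟨m, Subset.rfl⟩
  choose g hg using hg
  obtain ⟨α, hα⟩ := hG g
  obtain ⟨x, hx, hxn⟩ := h2 α
  have hmem : ((⟨x, hx⟩, ⟨y α, mem_range_self α⟩) : X × range y) ∈ ⋃ n, ⋃₀ F n := by
    rw [hcov]; trivial
  obtain ⟨n, hn⟩ := mem_iUnion.1 hmem
  obtain ⟨u, hu, hpu⟩ := hn
  have h3 : n + 1 ≤ nd x (y α) (g n) := hg n u hu hpu
  have h4 : nd x (y α) (g n) ≤ nd x (y α) (G α n) := nd_mono _ _ (hα n)
  have h5 : nd x (y α) (G α n) ≤ n := hxn n
  omega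

/-- The main theorem for regular `cov(M) = 𝔡`. -/
theorem main_general (h : dNum ≤ covM) (hreg : covM.IsRegular) {X : Set C}
    (hX : IsLuzin covM X) :
    ∃ Y : Set C, (∀ k : ℕ, IsRothberger (Fin k → Y)) ∧ ¬ IsMenger (X × Y) := by
  let I := covM.ord.ToType
  have hcard : #I = covM := Cardinal.mk_ord_toType _
  have hI : ∀ α : I, #(Iio α) < covM := fun α => by
    have := Cardinal.mk_Iio_lt α (by simp [I])
    rwa [hcard] at this
  obtain ⟨Z, hZX, hZ⟩ := Cardinal.le_mk_iff_exists_subset.1 hX.1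
  have hZm : ¬ IsMeagre Z := by
    intro hm
    have h1 := hX.2 Z hm
    rw [inter_eq_self_of_subset_right hZX, hZ] at h1
    exact lt_irrefl _ h1
  obtain ⟨Fam, G, hFam, hcof, hG⟩ := exists_families hreg.aleph0_le h hZm hZ.le hcard
  obtain ⟨y, hy1, hy2, hy3⟩ := exists_points rfl hreg hX hI (Fam := Fam) G
  refine ⟨range y, fun k => ?_, not_menger hG hy2 hy3⟩
  exact rothberger_powers rfl hreg hcard hI
    (fun j M hM => exists_avoid hFam hcof hy1 hM) k

/-- The continuum hypothesis gives the assumptions of the main theorem. -/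
theorem of_CH (hCH : (𝔠 : Cardinal.{0}) = ℵ₁) : dNum ≤ covM ∧ covM.IsRegular := by
  have h1 : ℵ₁ ≤ covM := by
    rw [← Cardinal.succ_aleph0]
    exact Order.succ_le_of_lt aleph0_lt_covM
  have h3 : covM = ℵ₁ := le_antisymm (covM_le_continuum.trans_eq hCH) h1
  refine ⟨(dNum_le_continuum.trans_eq hCH).trans h1, ?_⟩
  rw [h3]
  exact Cardinal.isRegular_aleph_one

end Pool.Agent.Lib.MP_10f401_gt
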