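import Pool.Agent.Lib.MP_10f401_gt.Construction

/-!
# The finite powers of the constructed set are Rothberger
-/

set_option autoImplicit false

namespace Pool.Agent.Lib.MP_10f401_gt

open Set Filter
open scoped Cardinal

/-- Every Rothberger space is Menger. -/
theorem IsRothberger.isMenger {Z : Type*} [TopologicalSpace Z] (h : IsRothberger Z) :
    IsMenger Z := by
  intro U hU
  obtain ⟨V, hV, hcov⟩ := h U hU
  refine ⟨fun n => {V n}, fun n => ⟨singleton_subset_iff.2 (hV n), finite_singleton _⟩, ?_⟩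
  simpa using hcov

/-- Sets of size less than `cov(M)` can be covered by a selection. -/
theorem small_cover {T : Type} [TopologicalSpace T] [SecondCountableTopology T] [Nonempty T]
    {ι : Type} (hι : #ι < covM) (z : ι → T) (U : ℕ → Set (Set T))
    (hU : ∀ n, (∀ u ∈ U n, IsOpen u) ∧ ⋃₀ U n = univ) :
    ∃ V : ℕ → Set T, (∀ n, V n ∈ U n) ∧ ∀ i, ∃ n, z i ∈ V n := by
  have h1 : ∀ n, ∃ e : ℕ → Set T, (∀ m, e m ∈ U n) ∧ ∀ x, ∃ m, x ∈ e m := by
    intro n
    obtain ⟨S, hSc, hSU, hS⟩ := TopologicalSpace.isOpen_sUnion_countable (U n) (hU n).1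
    rw [(hU n).2] at hS
    have hne : S.Nonempty := by
      rw [nonempty_iff_ne_empty]
      rintro rfl
      rw [sUnion_empty] at hS
      exact empty_ne_univ hS
    obtain ⟨e, he⟩ := hSc.exists_eq_range hne
    refine ⟨e, fun m => hSU (he ▸ mem_range_self m), fun x => ?_⟩
    obtain ⟨s, hs, hx⟩ : x ∈ ⋃₀ S := hS ▸ mem_univ x
    rw [he] at hs
    obtain ⟨m, rfl⟩ := hs
    exact ⟨m, hx⟩
  choose e he1 he2 using h1
  choose f hf using fun (i : ι) (n : ℕ) => he2 n (z i)
  obtain ⟨g, hg⟩ := exists_guess f hι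
  refine ⟨fun n => e n (g n), fun n => he1 n _, fun i => ?_⟩
  obtain ⟨n, -, hn⟩ := hg i 0
  refine ⟨n, ?_⟩
  change z i ∈ e n (g n)
  rw [hn]
  exact hf i n

/-- The complement of a dense open subset of a subspace has nowhere dense closure. -/
theorem cnd_closure_compl {T T' : Type*} [TopologicalSpace T] [TopologicalSpace T'] {f : T → T'}
    (hf : Topology.IsInducing f) {O : Set T} (hO : IsOpen O) (hd : Dense O) :
    CND (closure (f '' Oᶜ)) := by
  refine cnd_of_forall isClosed_closure fun U hU hne => ?_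
  by_contra hcon
  push Not at hcon
  obtain ⟨G, hG, rfl⟩ := hf.isOpen_iff.1 hO
  obtain ⟨x, hx⟩ := hne
  obtain ⟨_, hyU, ⟨w, hw, rfl⟩⟩ := mem_closure_iff.1 (hcon x hx) U hU hx
  obtain ⟨w', hw'1, hw'2⟩ := hd.inter_open_nonempty (f ⁻¹' U) (hU.preimage hf.continuous) ⟨w, hyU⟩
  obtain ⟨_, hyU', ⟨w'', hw'', rfl⟩⟩ := mem_closure_iff.1 (hcon (f w') hw'1) (U ∩ G)
    (hU.inter hG) ⟨hw'1, hw'2⟩
  exact hw'' hyU'.2

section

variable {κ : Cardinal.{0}} {I : Type} [LinearOrder I]

theorem exists_bound (hreg : κ.IsRegular) (hcard : #I = κ) (hI : ∀ α : I, #(Iio α) < κ)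
    {ι : Type} (hι : #ι < κ) (u : ι → I) : ∃ δ, ∀ i, u i < δ := by
  have h1 : #(⋃ i, Iic (u i)) < κ := by
    refine (Cardinal.card_iUnion_lt_iff_forall_of_isRegular hreg hι).2 fun i => ?_
    rw [← Iio_insert]
    refine (Cardinal.mk_insert_le).trans_lt ?_
    exact Cardinal.add_lt_of_lt hreg.aleph0_le (hI _)
      (lt_of_lt_of_le (Cardinal.one_lt_aleph0) hreg.aleph0_le)
  by_contra hcon
  push Not at hcon
  have h2 : (univ : Set I) ⊆ ⋃ i, Iic (u i) := fun δ _ => by
    obtain ⟨i, hi⟩ := hcon δ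
    exact mem_iUnion.2 ⟨i, hi⟩
  have h3 := Cardinal.mk_le_mk_of_subset h2
  rw [Cardinal.mk_univ, hcard] at h3
  exact absurd h3 (not_le.2 h1)

theorem card_fun_lt (hunc : ℵ₀ < κ) {T : Type} (hT : #T < κ) (k : ℕ) : #(Fin k → T) < κ := by
  rw [← Cardinal.power_def, Cardinal.mk_fin, Cardinal.power_natCast]
  exact (Cardinal.power_nat_le_max).trans_lt (max_lt hT hunc)

/-- The point of `Y ^ k` given by the indices. -/
def pt (y : I → C) {k : ℕ} (a : Fin k → I) : Fin k → range y := fun i => ⟨y (a i), mem_range_self _⟩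

/-- The large values of `a`. -/
def bigs (δ : I) {k : ℕ} (a : Fin k → I) : Finset I :=
  (Finset.univ.image a).filter fun β => δ ≤ β

theorem mem_bigs {δ : I} {k : ℕ} {a : Fin k → I} {β : I} :
    β ∈ bigs δ a ↔ (∃ i, a i = β) ∧ δ ≤ β := by
  simp [bigs]

/-- Substitution of `w` for the large coordinates. -/
def sbst (y : I → C) {δ : I} {j k : ℕ} (φ : Fin k → Iio δ ⊕ Fin j) (w : Fin j → range y) :
    Fin k → range y := fun i => Sum.elim (fun β : Iio δ => ⟨y β.1, mem_range_self _⟩) w (φ i)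

theorem continuous_sbst (y : I → C) {δ : I} {j k : ℕ} (φ : Fin k → Iio δ ⊕ Fin j) :
    Continuous (sbst y φ) := by
  refine continuous_pi fun i => ?_
  unfold sbst
  rcases φ i with β | l
  · exact continuous_const
  · exact continuous_apply l

/-- The main induction. -/
theorem cover_bigs (hκ : κ = covM) (hreg : κ.IsRegular) (hcard : #I = κ)
    (hI : ∀ α : I, #(Iio α) < κ) {y : I → C}
    (hy : ∀ (j : ℕ) (M : Set (Fin j → C)), CND M →
      ∃ u : I, ∀ b : Fin j → I, StrictMono b → (∀ i, u < b i) → (fun i => y (b i)) ∉ M) (k j : ℕ) :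
    ∀ (δ : I) (U : ℕ → Set (Set (Fin k → range y))),
      (∀ n, (∀ u ∈ U n, IsOpen u) ∧ ⋃₀ U n = univ) →
      ∃ V : ℕ → Set (Fin k → range y), (∀ n, V n ∈ U n) ∧
        ∀ a : Fin k → I, (bigs δ a).card ≤ j → ∃ n, pt y a ∈ V n := by
  have hunc : ℵ₀ < κ := hκ ▸ aleph0_lt_covM
  have hIne : Nonempty I := by
    rw [← Cardinal.mk_ne_zero_iff, hcard]
    exact (Cardinal.aleph0_pos.trans hunc).ne'
  have hne : ∀ k : ℕ, Nonempty (Fin k → range y) := fun k =>
    ⟨fun _ => ⟨y hIne.some, mem_range_self _⟩⟩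
  induction j with
  | zero =>
    intro δ U hU
    have := hne k
    obtain ⟨V, hV, hcov⟩ := small_cover (hκ ▸ card_fun_lt hunc (hI δ) k)
      (fun s : Fin k → Iio δ => pt y fun i => (s i : I)) U hU
    refine ⟨V, hV, fun a ha => ?_⟩
    have h1 : ∀ i, a i < δ := by
      intro i
      by_contra h
      rw [not_lt] at h
      have : a i ∈ bigs δ a := mem_bigs.2 ⟨⟨i, rfl⟩, h⟩
      rw [Finset.card_eq_zero.1 (Nat.le_zero.1 ha)] at this
      simp at this
    exact hcov fun i => ⟨a i, h1 i⟩
  | succ j ih =>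
    intro δ U hU
    have := hne k
    have := hne (j + 1)
    -- the small dense set
    let Φ : Type := Fin k → Iio δ ⊕ Fin (j + 1)
    have hΦ : #Φ < κ := by
      apply card_fun_lt hunc
      rw [Cardinal.mk_sum, Cardinal.lift_id, Cardinal.lift_id]
      exact Cardinal.add_lt_of_lt hunc.le (hI δ) (by
        rw [Cardinal.mk_fin]
        exact (Cardinal.natCast_lt_aleph0).trans hunc)
    have hZ : #(Φ × ℕ) < covM := by
      rw [Cardinal.mk_prod, Cardinal.lift_id, Cardinal.lift_id, ← hκ]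
      exact Cardinal.mul_lt_of_lt hunc.le hΦ (by simpa using hunc)
    let D : ℕ → (Fin (j + 1) → range y) := TopologicalSpace.denseSeq _
    obtain ⟨Ve, hVe, hcove⟩ := small_cover hZ (fun t : Φ × ℕ => sbst y t.1 (D t.2))
      (fun n => U (2 * n)) (fun n => hU (2 * n))
    let W : Set (Fin k → range y) := ⋃ n, Ve n
    have hW : IsOpen W := isOpen_iUnion fun n => (hU (2 * n)).1 _ (hVe n)
    have hdense : ∀ φ : Φ, Dense (sbst y φ ⁻¹' W) := by
      intro φ
      refine (TopologicalSpace.denseRange_denseSeq (Fin (j + 1) → range y)).mono ?_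
      rintro _ ⟨n, rfl⟩
      obtain ⟨m, hm⟩ := hcove (φ, n)
      exact mem_iUnion.2 ⟨m, hm⟩
    let inc : (Fin (j + 1) → range y) → (Fin (j + 1) → C) := fun w i => (w i : C)
    have hinc : Topology.IsInducing inc :=
      Topology.IsInducing.piMap fun _ => Topology.IsInducing.subtypeVal
    have hu : ∀ φ : Φ, ∃ u : I, ∀ b : Fin (j + 1) → I, StrictMono b → (∀ i, u < b i) →
        sbst y φ (pt y b) ∈ W := by
      intro φ
      obtain ⟨u, hu⟩ := hy (j + 1) _ (cnd_closure_compl hinc
        (hW.preimage (continuous_sbst y φ)) (hdense φ))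
      refine ⟨u, fun b hb hub => ?_⟩
      by_contra hcon
      apply hu b hb hub
      exact subset_closure ⟨pt y b, hcon, rfl⟩
    choose u hu using hu
    obtain ⟨δ', hδ'⟩ := exists_bound hreg hcard hI (ι := Option Φ) (by
      rw [Cardinal.mk_option]
      exact Cardinal.add_lt_of_lt hunc.le hΦ (Cardinal.one_lt_aleph0.trans hunc))
      (fun o => o.elim δ u)
    have hδδ' : δ < δ' := hδ' none
    have huδ' : ∀ φ, u φ < δ' := fun φ => hδ' (some φ)
    obtain ⟨Vo, hVo, hcovo⟩ := ih δ' (fun n => U (2 * n + 1)) (fun n => hU (2 * n + 1))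
    refine ⟨fun n => if n % 2 = 0 then Ve (n / 2) else Vo (n / 2), fun n => ?_, fun a ha => ?_⟩
    · by_cases hn : n % 2 = 0
      · simp only [hn, if_true]
        have := hVe (n / 2)
        rwa [show 2 * (n / 2) = n by omega] at this
      · simp only [hn, if_false]
        have := hVo (n / 2)
        rwa [show 2 * (n / 2) + 1 = n by omega] at this
    · by_cases hc : (bigs δ' a).card ≤ j
      · obtain ⟨n, hn⟩ := hcovo a hc
        refine ⟨2 * n + 1, ?_⟩
        have h1 : ¬ (2 * n + 1) % 2 = 0 := by omega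
        have h2 : (2 * n + 1) / 2 = n := by omega
        simp only [h1, if_false, h2]
        exact hn
      · have hsub : bigs δ' a ⊆ bigs δ a := by
          intro β hβ
          rw [mem_bigs] at hβ ⊢
          exact ⟨hβ.1, hδδ'.le.trans hβ.2⟩
        have hcardδ : (bigs δ a).card = j + 1 := by
          have := Finset.card_le_card hsub
          omega
        have heq : bigs δ' a = bigs δ a := Finset.eq_of_subset_of_card_le hsub (by omega)
        let b : Fin (j + 1) → I := (bigs δ a).orderEmbOfFin hcardδ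
        have hb : StrictMono b := ((bigs δ a).orderEmbOfFin hcardδ).strictMono
        have hbmem : ∀ l, b l ∈ bigs δ' a := fun l => heq ▸ Finset.orderEmbOfFin_mem _ hcardδ l
        have hbsurj : ∀ β ∈ bigs δ a, ∃ l, b l = β := by
          intro β hβ
          have : β ∈ range ((bigs δ a).orderEmbOfFin hcardδ) := by
            rw [Finset.range_orderEmbOfFin]; exact hβ
          exact this
        have hφ : ∀ i, ∃ s : Iio δ ⊕ Fin (j + 1), Sum.elim (fun β : Iio δ => β.1) b s = a i := by
          intro i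
          by_cases h : a i < δ
          · exact ⟨Sum.inl ⟨a i, h⟩, rfl⟩
          · obtain ⟨l, hl⟩ := hbsurj (a i) (mem_bigs.2 ⟨⟨i, rfl⟩, not_lt.1 h⟩)
            exact ⟨Sum.inr l, hl⟩
        choose φ hφ using hφ
        have hpt : pt y a = sbst y φ (pt y b) := by
          funext i
          have h1 := hφ i
          unfold pt sbst
          rcases hs : φ i with β | l
          · rw [hs] at h1
            simp only [Sum.elim_inl] at h1 ⊢
            exact Subtype.ext (congrArg y h1.symm)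
          · rw [hs] at h1
            simp only [Sum.elim_inr] at h1 ⊢
            exact Subtype.ext (congrArg y h1.symm)
        have hmem : pt y a ∈ W := by
          rw [hpt]
          exact hu φ b hb fun l => (huδ' φ).trans_le (mem_bigs.1 (hbmem l)).2
        obtain ⟨n, hn⟩ := mem_iUnion.1 hmem
        refine ⟨2 * n, ?_⟩
        have h1 : (2 * n) % 2 = 0 := by omega
        have h2 : (2 * n) / 2 = n := by omega
        simp only [h1, if_true, h2]
        exact hn

theorem rothberger_powers (hκ : κ = covM) (hreg : κ.IsRegular) (hcard : #I = κ)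
    (hI : ∀ α : I, #(Iio α) < κ) {y : I → C}
    (hy : ∀ (j : ℕ) (M : Set (Fin j → C)), CND M →
      ∃ u : I, ∀ b : Fin j → I, StrictMono b → (∀ i, u < b i) → (fun i => y (b i)) ∉ M) (k : ℕ) :
    IsRothberger (Fin k → range y) := by
  have hunc : ℵ₀ < κ := hκ ▸ aleph0_lt_covM
  have hIne : Nonempty I := by
    rw [← Cardinal.mk_ne_zero_iff, hcard]
    exact (Cardinal.aleph0_pos.trans hunc).ne'
  intro U hU
  obtain ⟨V, hV, hcov⟩ := cover_bigs hκ hreg hcard hI hy k k hIne.some U hU
  refine ⟨V, hV, ?_⟩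
  rw [eq_univ_iff_forall]
  intro z
  choose a ha using fun i => (z i).2
  have hz : pt y a = z := by
    funext i
    exact Subtype.ext (ha i)
  obtain ⟨n, hn⟩ := hcov a (by
    refine (Finset.card_filter_le _ _).trans (Finset.card_image_le.trans ?_)
    simp)
  rw [hz] at hn
  exact mem_iUnion.2 ⟨n, hn⟩

end

end Pool.Agent.Lib.MP_10f401_gt
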