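import Pool.Agent.Lib.MP_10f401_gt.Basic

/-!
# Sections of nowhere dense subsets of the countable power of the Cantor space
-/

set_option autoImplicit false

namespace Pool.Agent.Lib.MP_10f401_gt

open Set Filter
open scoped Cardinal

/-- The countable power of the Cantor space. -/
abbrev P := ℕ → C

/-- `C` and `P` are homeomorphic. -/
def theta : C ≃ₜ P where
  toFun x := fun i j => x (Nat.pair i j)
  invFun p := fun k => p (Nat.unpair k).1 (Nat.unpair k).2
  left_inv x := by funext k; simp
  right_inv p := by funext i j; simp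
  continuous_toFun := by fun_prop
  continuous_invFun := by fun_prop

/-- Put `v` in front of `z`. -/
def cns (v : C) (z : P) : P := fun n => Nat.casesOn n v fun m => z m

@[simp] theorem cns_zero (v : C) (z : P) : cns v z 0 = v := rfl

@[simp] theorem cns_succ (v : C) (z : P) (n : ℕ) : cns v z (n + 1) = z n := rfl

theorem cns_eta (p : P) : cns (p 0) (fun n => p (n + 1)) = p := by
  funext n
  rcases n with _ | n <;> rfl

theorem continuous_cns_right (v : C) : Continuous fun z => cns v z := by
  refine continuous_pi fun n => ?_
  rcases n with _ | n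
  · exact continuous_const
  · exact continuous_apply n

theorem continuous_cns_left (z : P) : Continuous fun v => cns v z := by
  refine continuous_pi fun n => ?_
  rcases n with _ | n
  · exact continuous_id
  · exact continuous_const

/-- The points `v` such that the section of `F` at `v` contains `W`. -/
def big (F : Set P) (W : Set P) : Set C := {v | ∀ z ∈ W, cns v z ∈ F}

theorem cnd_big {F : Set P} (hF : CND F) {W : Set P} (hW : IsOpen W) (hne : W.Nonempty) :
    CND (big F W) := by
  have hcl : IsClosed (big F W) := by
    have : big F W = ⋂ z ∈ W, (fun v => cns v z) ⁻¹' F := by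
      ext v; simp [big]
    rw [this]
    exact isClosed_biInter fun z _ => hF.1.preimage (continuous_cns_left z)
  refine cnd_of_forall hcl fun U hU ⟨v, hv⟩ => ?_
  obtain ⟨z, hz⟩ := hne
  let O : Set P := {p | p 0 ∈ U ∧ (fun n => p (n + 1)) ∈ W}
  have hO : IsOpen O := by
    apply IsOpen.inter
    · exact hU.preimage (continuous_apply 0)
    · exact hW.preimage (continuous_pi fun n => continuous_apply (n + 1))
  obtain ⟨p, hp, hpF⟩ := hF.exists_notMem hO ⟨cns v z, hv, hz⟩
  refine ⟨p 0, hp.1, fun h => hpF ?_⟩
  have := h _ hp.2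
  rwa [cns_eta] at this

theorem cnd_section {F : Set P} (hF : IsClosed F) {v : C}
    (h : ∀ W ∈ TopologicalSpace.countableBasis P, W.Nonempty → v ∉ big F W) :
    CND {z | cns v z ∈ F} := by
  refine cnd_of_forall (hF.preimage (continuous_cns_right v)) fun U hU ⟨z, hz⟩ => ?_
  obtain ⟨W, hW, hzW, hWU⟩ :=
    (TopologicalSpace.isBasis_countableBasis P).exists_subset_of_mem_open hz hU
  have h1 := h W hW ⟨z, hzW⟩
  simp only [big, mem_ofPred_eq] at h1
  push Not at h1
  obtain ⟨z', hz', hz'F⟩ := h1
  exact ⟨z', hWU hz', hz'F⟩

/-- Put a list in front of `z`: the head of the list comes last. -/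
def appL : List C → P → P
  | [], z => z
  | v :: l, z => appL l (cns v z)

/-- Iterated sections. -/
def secL (F : Set P) (l : List C) : Set P := {z | appL l z ∈ F}

theorem secL_cons (F : Set P) (v : C) (l : List C) :
    secL F (v :: l) = {z | cns v z ∈ secL F l} := rfl

theorem secL_nil (F : Set P) : secL F [] = F := rfl

/-- The values of `b`, the last one coming first. -/
def dl {I : Type*} : (j : ℕ) → (Fin j → I) → List I
  | 0, _ => []
  | j + 1, b => b (Fin.last j) :: dl j fun i => b i.castSucc

theorem mem_dl {I : Type*} : ∀ (j : ℕ) (b : Fin j → I) (c : I), c ∈ dl j b → ∃ i, b i = c := by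
  intro j
  induction j with
  | zero => intro b c hc; simp [dl] at hc
  | succ j ih =>
    intro b c hc
    rw [dl, List.mem_cons] at hc
    rcases hc with rfl | hc
    · exact ⟨_, rfl⟩
    · obtain ⟨i, hi⟩ := ih _ _ hc
      exact ⟨_, hi⟩

theorem pairwise_dl {I : Type*} [LinearOrder I] : ∀ (j : ℕ) (b : Fin j → I), StrictMono b →
    (dl j b).Pairwise (fun a c => c < a) := by
  intro j
  induction j with
  | zero => intro b _; simp [dl]
  | succ j ih =>
    intro b hb
    rw [dl, List.pairwise_cons]
    refine ⟨fun c hc => ?_, ih _ fun i i' h => hb h⟩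
    obtain ⟨i, rfl⟩ := mem_dl _ _ _ hc
    exact hb (Fin.castSucc_lt_last i)

theorem appL_dl_ge {I : Type*} (y : I → C) : ∀ (j : ℕ) (b : Fin j → I) (z : P) (m : ℕ),
    appL ((dl j b).map y) z (j + m) = z m := by
  intro j
  induction j with
  | zero => intro b z m; simp [dl, appL]
  | succ j ih =>
    intro b z m
    rw [dl, List.map_cons, appL, show j + 1 + m = j + (m + 1) by omega, ih]
    rfl

theorem appL_dl_lt {I : Type*} (y : I → C) : ∀ (j : ℕ) (b : Fin j → I) (z : P) (i : Fin j),
    appL ((dl j b).map y) z i = y (b i) := by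
  intro j
  induction j with
  | zero => intro b z i; exact i.elim0
  | succ j ih =>
    intro b z i
    rw [dl, List.map_cons, appL]
    refine Fin.lastCases ?_ (fun i => ?_) i
    · have := appL_dl_ge y j (fun i => b i.castSucc) (cns (y (b (Fin.last j))) z) 0
      rw [Fin.val_last]
      rw [add_zero] at this
      rw [this]
      rfl
    · rw [Fin.val_castSucc]
      exact ih _ _ i

/-- Cylinders over closed nowhere dense sets. -/
theorem cnd_cylinder {j : ℕ} {M : Set (Fin j → C)} (hM : CND M) :
    CND {p : P | (fun i : Fin j => p i) ∈ M} := by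
  have hcl : IsClosed {p : P | (fun i : Fin j => p i) ∈ M} :=
    hM.1.preimage (continuous_pi fun i => continuous_apply _)
  refine cnd_of_forall hcl fun U hU ⟨p, hp⟩ => ?_
  let ψ : (Fin j → C) → P := fun w n => if h : n < j then w ⟨n, h⟩ else p n
  have hψ : Continuous ψ := by
    refine continuous_pi fun n => ?_
    by_cases h : n < j
    · simp only [ψ, h, dif_pos]
      exact continuous_apply _
    · simp only [ψ, h, dif_neg, not_false_eq_true]
      exact continuous_const
  have hψp : ψ (fun i => p i) = p := by
    funext n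
    by_cases h : n < j <;> simp [ψ, h]
  obtain ⟨w, hw, hwM⟩ := hM.exists_notMem (hU.preimage hψ) ⟨fun i => p i, by
    rw [mem_preimage, hψp]; exact hp⟩
  refine ⟨ψ w, hw, fun h => hwM ?_⟩
  have : (fun i : Fin j => ψ w i) = w := by
    funext i
    simp [ψ]
  rwa [mem_ofPred_eq, this] at h

end Pool.Agent.Lib.MP_10f401_gt
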